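import Pool.Agent.H7.HD.Targets7
import Pool.Agent.H14.HD.QE

/-!
# (PS) functions for the ordinals which are singular in HOD
-/

set_option autoImplicit false

open Ordinal Cardinal Order Set
open scoped ZFSet

universe u

namespace Pool.Agent.H13.HD.PS

open _root_.HD
open Pool.Agent.H14.HD.QE (DF ev df_ev)

section

variable (en : Ordinal.{u} → ZFSet.{u})

/-- the relation with code `c` gives an unbounded map of `t` to `a` -/
def Un (c t a : Ordinal.{u}) : Prop := ∀ b < a, ∃ i < t, ev en c i < a ∧ b ≤ ev en c i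

noncomputable def pp (a : Ordinal.{u}) : Ordinal.{u} := sInf {t | ∃ c, Un en c t a}

noncomputable def cc (a : Ordinal.{u}) : Ordinal.{u} := sInf {c | Un en c (pp en a) a}

open Classical in
noncomputable def vv (c a i : Ordinal.{u}) : Ordinal.{u} := if ev en c i < a then ev en c i else 0

noncomputable def ss (a i : Ordinal.{u}) : Ordinal.{u} := vv en (cc en a) a i

noncomputable def rr (a z : Ordinal.{u}) : Ordinal.{u} :=
  sInf {i | i < pp en a ∧ z ≤ ss en a i}

variable {en}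

theorem do_Un (hE2 : DO fun w => w 0 ∈ E2 en (w 2) (w 1)) :
    DO fun w => Un en (w 0) (w 1) (w 2) := by
  have hev := df_ev hE2
  refine DO.allLt (R := fun b w => ∃ i < w 1, ev en (w 0) i < w 2 ∧ b ≤ ev en (w 0) i) 2 ?_
  refine DO.exLt (R := fun i w => ev en (w 1) i < w 3 ∧ w 0 ≤ ev en (w 1) i) 2 ?_
  have hev1 : DF fun w : ℕ → Ordinal.{u} => ev en (w 2) (w 0) :=
    DO.s3 (X := fun y c x => y = ev en c x) hev 0 3 1
  exact DF.sub (P := fun y w => y < w 4 ∧ w 1 ≤ y) hev1 ((DO.lt 0 5).and (DO.le 2 0))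

theorem df_p (hU : DO fun w => Un en (w 0) (w 1) (w 2)) : DF fun w => pp en (w 0) := by
  refine DF.sinf (A := fun t w => ∃ c, Un en c t (w 0)) ?_
  exact DO.ex (R := fun c w => Un en c (w 0) (w 1)) hU

theorem df_c (hU : DO fun w => Un en (w 0) (w 1) (w 2)) : DF fun w => cc en (w 0) := by
  have hp := df_p hU
  refine DF.sinf (A := fun c w => Un en c (pp en (w 0)) (w 0)) ?_
  have h1 : DF fun w => pp en (w 1) := DO.s2 (X := fun t b => t = pp en b) hp 0 2
  exact DF.sub (P := fun t w => Un en (w 0) t (w 1)) h1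
    (DO.s3 (X := fun c t b => Un en c t b) hU 1 0 2)

theorem do_v (hE2 : DO fun w => w 0 ∈ E2 en (w 2) (w 1)) :
    DO fun w => w 3 = vv en (w 0) (w 1) (w 2) := by
  have hev := df_ev hE2
  have h1 : DO fun w : ℕ → Ordinal.{u} => (w 0 < w 2 ∧ w 4 = w 0) ∨ (¬ w 0 < w 2 ∧ w 4 = 0) :=
    ((DO.lt 0 2).and (DO.eq 4 0)).or ((DO.lt 0 2).not.and (DO.eqc 4 0))
  have hev1 : DF fun w : ℕ → Ordinal.{u} => ev en (w 0) (w 2) :=
    DO.s3 (X := fun y c x => y = ev en c x) hev 0 1 3
  refine (DF.sub (P := fun y w => (y < w 1 ∧ w 3 = y) ∨ (¬ y < w 1 ∧ w 3 = 0)) hev1 h1).congr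
    fun w => ?_
  unfold vv
  by_cases h : ev en (w 0) (w 2) < w 1
  · simp [h]
  · simp [h]

theorem do_s (hE2 : DO fun w => w 0 ∈ E2 en (w 2) (w 1)) :
    DO fun w => w 2 = ss en (w 0) (w 1) := by
  have hc := df_c (do_Un hE2)
  exact DF.sub (P := fun c w => w 2 = vv en c (w 0) (w 1)) hc
    (DO.s4 (X := fun c a i y => y = vv en c a i) (do_v hE2) 0 1 2 3)

theorem do_r (hE2 : DO fun w => w 0 ∈ E2 en (w 2) (w 1)) :
    DO fun w => w 2 = rr en (w 0) (w 1) := by
  have hp := df_p (do_Un hE2)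
  have hs := do_s hE2
  have h1 : DF fun w => rr en (w 0) (w 1) := by
    refine DF.sinf (A := fun i w => i < pp en (w 0) ∧ w 1 ≤ ss en (w 0) i) ?_
    refine DO.and ?_ ?_
    · have hp1 : DF fun w => pp en (w 1) := DO.s2 (X := fun t b => t = pp en b) hp 0 2
      exact DF.sub (P := fun t w => w 0 < t) hp1 (DO.lt 1 0)
    · have hs1 : DF fun w => ss en (w 1) (w 0) := DO.s3 (X := fun a i y => y = ss en a i) hs 2 1 0
      exact DF.sub (P := fun y w => w 2 ≤ y) hs1 (DO.le 3 0)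
  exact DO.s3 (X := fun y b z => y = rr en b z) h1 2 0 1

end

theorem ps : T_PS.{u} := by
  obtain ⟨en, hen⟩ := All.en.{u}
  obtain ⟨hE, hE2, hS, hR2⟩ := All.ea en hen
  have hU := do_Un hE2
  have hb : ∀ a, ∃ c, Un en c a a := by
    intro a
    obtain ⟨c, hc⟩ := hR2 (fun a z => z = a) (DO.eq 1 0) a
    refine ⟨c, fun z hz => ⟨z, hz, ?_⟩⟩
    have h3 : ev en c z = z := by
      have h4 : E2 en c z = {z} := by
        ext y
        rw [hc]
        simp only [mem_singleton_iff]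
        exact ⟨fun h => h.2.2, fun h => ⟨hz, h ▸ hz, h⟩⟩
      show sInf {s | s ∈ E2 en c z} = z
      have h5 : {s | s ∈ E2 en c z} = {z} := h4
      rw [h5, csInf_singleton]
    rw [h3]
    exact ⟨hz, le_refl _⟩
  have hpl : ∀ a, pp en a ≤ a := fun a => csInf_le' (hb a)
  have hpm : ∀ a, ∃ c, Un en c (pp en a) a := fun a =>
    csInf_mem (s := {t | ∃ c, Un en c t a}) ⟨a, hb a⟩
  have hcm : ∀ a, Un en (cc en a) (pp en a) a := fun a => by
    obtain ⟨c, hc⟩ := hpm a
    exact csInf_mem (s := {c | Un en c (pp en a) a}) ⟨c, hc⟩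
  have hvv : ∀ c a i, vv en c a i ≤ a := by
    intro c a i
    unfold vv
    split_ifs with h
    · exact h.le
    · exact zero_le
  have hvv2 : ∀ c a i, 0 < a → vv en c a i < a := by
    intro c a i ha
    unfold vv
    split_ifs with h
    · exact h
    · exact ha
  have hrm : ∀ a z, z < a → rr en a z < pp en a ∧ z ≤ ss en a (rr en a z) := by
    intro a z hz
    obtain ⟨i, hi, h1, h2⟩ := hcm a z hz
    refine csInf_mem (s := {i | i < pp en a ∧ z ≤ ss en a i}) ⟨i, hi, ?_⟩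
    unfold ss vv
    rw [if_pos h1]
    exact h2
  have hrr : ∀ a z, rr en a z ≤ a := by
    intro a z
    by_cases hne : {i | i < pp en a ∧ z ≤ ss en a i}.Nonempty
    · exact ((csInf_mem hne).1.trans_le (hpl a)).le
    · unfold rr
      rw [Set.not_nonempty_iff_eq_empty.1 hne, Ordinal.sInf_empty]
      exact zero_le
  have hsing : ∀ a, SingHOD a ↔ ∃ t < a, ∃ c, Un en c t a := by
    intro a
    constructor
    · rintro ⟨τ, hτ, f, hf, hfun, hfs⟩
      obtain ⟨c, hc⟩ := hR2 _ hf.od.dr a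
      refine ⟨τ, hτ, c, fun b hb' => ?_⟩
      obtain ⟨i, hi, y, hby, hy⟩ := hfs b hb'
      have hya : y < a := toZFSet_mem_toZFSet_iff.1 (ZFSet.pair_mem_prod.1 (hfun.1 hy)).2
      have h4 : {s | s ∈ E2 en c i} = {y} := by
        ext y'
        simp only [mem_ofPred_eq, mem_singleton_iff]
        rw [hc]
        constructor
        · rintro ⟨-, -, h⟩
          have huniq := (hfun.2 i.toZFSet (toZFSet_mem_toZFSet_iff.2 hi)).unique h hy
          exact toZFSet_injective huniq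
        · rintro rfl
          exact ⟨hi.trans hτ, hya, hy⟩
      have h5 : ev en c i = y := by
        show sInf {s | s ∈ E2 en c i} = y
        rw [h4, csInf_singleton]
      exact ⟨i, hi, by rw [h5]; exact hya, by rw [h5]; exact hby⟩
    · rintro ⟨t, ht, c, hc⟩
      have hRd : DR fun i y => y = vv en c a i := by
        refine DO.sub (R := fun c w => w 1 = vv en c a (w 0)) c ?_
        refine DO.sub (R := fun a w => w 2 = vv en (w 0) a (w 1)) a ?_
        exact DO.s4 (X := fun c a i y => y = vv en c a i) (do_v hE2) 1 0 2 3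
      have ha : 0 < a := lt_of_le_of_lt zero_le ht
      refine ⟨t, ht, rs t a (fun i y => y = vv en c a i), hod_rs hRd t a, ⟨?_, ?_⟩, ?_⟩
      · intro p hp
        obtain ⟨i, hi, y, hy, -, rfl⟩ := mem_rs.1 hp
        exact ZFSet.pair_mem_prod.2 ⟨toZFSet_mem_toZFSet_iff.2 hi, toZFSet_mem_toZFSet_iff.2 hy⟩
      · intro x hx
        obtain ⟨i, hi, rfl⟩ := mem_toZFSet_iff.1 hx
        refine ⟨(vv en c a i).toZFSet, pair_mem_rs.2 ⟨hi, hvv2 c a i ha, rfl⟩, fun y hy => ?_⟩
        obtain ⟨i', hi', y', hy', hR, he⟩ := mem_rs.1 hy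
        obtain ⟨h1, h2⟩ := ZFSet.pair_injective he
        have h3 := toZFSet_injective h1
        rw [h2, hR, h3]
      · intro b hb'
        obtain ⟨i, hi, h1, h2⟩ := hc b hb'
        refine ⟨i, hi, ev en c i, h2, pair_mem_rs.2 ⟨hi, h1, ?_⟩⟩
        unfold vv
        rw [if_pos h1]
  refine ⟨pp en, ss en, rr en, ⟨⟨hpl, fun a i => hvv _ _ _, hrr, ?_, ?_, ?_, ?_⟩, ?_, do_s hE2,
    do_r hE2, ?_⟩⟩
  · intro a ha
    obtain ⟨t, ht, hc⟩ := (hsing a).1 ha
    exact lt_of_le_of_lt (csInf_le' (s := {t | ∃ c, Un en c t a}) hc) ht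
  · intro a ha i _
    obtain ⟨t, ht, -⟩ := (hsing a).1 ha
    exact hvv2 _ _ _ (lt_of_le_of_lt zero_le ht)
  · intro a _ z hz
    exact (hrm a z hz).1
  · intro a _ z hz
    exact (hrm a z hz).2
  · exact DO.s2 (X := fun t b => t = pp en b) (df_p hU) 1 0
  · refine (DO.exLt (R := fun t w => ∃ c, Un en c t (w 0)) 0 ?_).congr fun w => hsing (w 0)
    exact DO.ex (R := fun c w => Un en c (w 0) (w 1)) (DO.s3 (X := fun c t a => Un en c t a) hU 0 1 2)

end Pool.Agent.H13.HD.PS
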